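import Pool.Agent.Work.MP_dcf6a6_c1.Interface

/-! Block IFT of MP_dcf6a6_ag: implicit function theorem with surjective partial derivative. -/

set_option autoImplicit false

open Topology Filter

namespace Pool.C1.helper83

theorem ift_open {E F : Type} [NormedAddCommGroup E] [NormedSpace ℂ E] [FiniteDimensional ℂ E]
    [NormedAddCommGroup F] [NormedSpace ℂ F] [FiniteDimensional ℂ F]
    {X : Type} [TopologicalSpace X] (L : X → E →L[ℂ] F) (x₀ : X) (hc : ContinuousAt L x₀)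
    (hs : ∀ w, ∃ δ, L x₀ δ = w) : ∀ᶠ x in 𝓝 x₀, ∀ w, ∃ δ, L x δ = w := by
  have : CompleteSpace F := FiniteDimensional.complete ℂ F
  obtain ⟨r, hr⟩ := (L x₀).exists_rightInverse_of_surjective
    (LinearMap.range_eq_top.2 (fun w => hs w))
  have hc2 : ContinuousAt (fun x => (L x).comp r) x₀ :=
    ContinuousAt.clm_comp hc continuousAt_const
  have hu : IsUnit ((L x₀).comp r : F →L[ℂ] F) := by
    rw [hr]
    exact isUnit_one
  have ho : ∀ᶠ x in 𝓝 x₀, IsUnit ((L x).comp r : F →L[ℂ] F) :=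
    hc2.eventually (Units.isOpen.mem_nhds hu)
  filter_upwards [ho] with x hx w
  obtain ⟨u, hu⟩ := hx
  refine ⟨r ((u⁻¹ : (F →L[ℂ] F)ˣ).val w), ?_⟩
  have h1 : ((L x).comp r) ((u⁻¹ : (F →L[ℂ] F)ˣ).val w) = w := by
    rw [← hu]
    have h2 : (u.val * (u⁻¹).val) w = w := by
      rw [Units.mul_inv]
      rfl
    exact h2
  exact h1

theorem stmt_IFT : Stmt_IFT := by
  intro E F _ _ _ _ _ _ f e₀ V hf h0 hs hV
  have : CompleteSpace E := FiniteDimensional.complete ℂ E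
  have : CompleteSpace F := FiniteDimensional.complete ℂ F
  have hd : HasStrictFDerivAt f (fderiv ℂ f (e₀, 0)) (e₀, 0) :=
    hf.contDiffAt.hasStrictFDerivAt one_ne_zero
  have hd2 : HasStrictFDerivAt (fun p : E × ℂ => (f p, p.2))
      ((fderiv ℂ f (e₀, 0)).prod (ContinuousLinearMap.snd ℂ E ℂ)) (e₀, 0) :=
    hd.prodMk hasStrictFDerivAt_snd
  have hsurj : ((fderiv ℂ f (e₀, 0)).prod (ContinuousLinearMap.snd ℂ E ℂ)).range = ⊤ := by
    refine LinearMap.range_eq_top.2 (fun w => ?_)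
    obtain ⟨δ, hδ⟩ := hs (w.1 - fderiv ℂ f (e₀, 0) (0, w.2))
    refine ⟨(δ, w.2), ?_⟩
    have h1 : ((δ, w.2) : E × ℂ) = (δ, 0) + (0, w.2) := by simp
    show (fderiv ℂ f (e₀, 0) (δ, w.2), w.2) = w
    rw [h1, map_add, hδ]
    simp
  have hmap := hd2.map_nhds_eq_of_surj hsurj
  -- openness of surjectivity
  have hcont : Continuous (fderiv ℂ f) := hf.continuous_fderiv one_ne_zero
  have hopen : ∀ᶠ x in 𝓝 ((e₀, 0) : E × ℂ),
      ∀ w, ∃ δ, ((fderiv ℂ f x).comp (ContinuousLinearMap.inl ℂ E ℂ)) δ = w := by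
    refine ift_open (fun x => (fderiv ℂ f x).comp (ContinuousLinearMap.inl ℂ E ℂ)) (e₀, 0) ?_ ?_
    · exact ContinuousAt.clm_comp hcont.continuousAt continuousAt_const
    · intro w
      obtain ⟨δ, hδ⟩ := hs w
      exact ⟨δ, hδ⟩
  have hW : {x | x ∈ V ∧ ∀ w, ∃ δ, ((fderiv ℂ f x).comp (ContinuousLinearMap.inl ℂ E ℂ)) δ = w}
      ∈ 𝓝 ((e₀, 0) : E × ℂ) := by
    filter_upwards [hV, hopen] with x hx hx'
    exact ⟨hx, hx'⟩
  have himg : (fun p : E × ℂ => (f p, p.2)) '' {x | x ∈ V ∧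
      ∀ w, ∃ δ, ((fderiv ℂ f x).comp (ContinuousLinearMap.inl ℂ E ℂ)) δ = w} ∈
      𝓝 ((0, 0) : F × ℂ) := by
    have h1 := Filter.image_mem_map (m := fun p : E × ℂ => (f p, p.2)) hW
    rw [hmap] at h1
    simpa only [h0] using h1
  -- a point `(0, ε)` with `ε ≠ 0` in the image
  have hc0 : ContinuousAt (fun z : ℂ => ((0, z) : F × ℂ)) 0 := by fun_prop
  have hev : ∀ᶠ z in 𝓝 (0 : ℂ), ((0, z) : F × ℂ) ∈ (fun p : E × ℂ => (f p, p.2)) '' {x | x ∈ V ∧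
      ∀ w, ∃ δ, ((fderiv ℂ f x).comp (ContinuousLinearMap.inl ℂ E ℂ)) δ = w} :=
    hc0.eventually himg
  have hev2 : ∀ᶠ z in 𝓝[≠] (0 : ℂ), ((0, z) : F × ℂ) ∈ (fun p : E × ℂ => (f p, p.2)) ''
      {x | x ∈ V ∧ ∀ w, ∃ δ, ((fderiv ℂ f x).comp (ContinuousLinearMap.inl ℂ E ℂ)) δ = w} :=
    hev.filter_mono nhdsWithin_le_nhds
  obtain ⟨ε, hε, hε0⟩ := (hev2.and self_mem_nhdsWithin).exists
  obtain ⟨⟨e, ε'⟩, ⟨hV', hsur⟩, heq⟩ := hε
  have h1 := congrArg Prod.fst heq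
  have h2 := congrArg Prod.snd heq
  simp only at h1 h2
  subst h2
  exact ⟨e, ε', hε0, hV', h1, fun w => hsur w⟩

end Pool.C1.helper83
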