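import Pool.Agent.Work.MP_dcf6a6_c1.Interface

/-! Block LIN of MP_dcf6a6_ag: the equations at the base point of the gluing. -/

set_option autoImplicit false

open Polynomial

namespace Pool.C1.helper83

theorem lo_coeff {n : ℕ} (c : ℕ) (ε : ℂ) (a : Fin (n + 1) → ℂ) (k : ℕ) :
    (lo c ε a).coeff k = if h : k < n + 1 then a ⟨k, h⟩ * ε ^ (k - c) else 0 := by
  unfold lo
  rw [Polynomial.finsetSum_coeff]
  simp only [Polynomial.coeff_C_mul_X_pow]
  split_ifs with h
  · rw [Finset.sum_eq_single (⟨k, h⟩ : Fin (n + 1))]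
    · simp
    · intro b _ hb
      rw [if_neg]
      intro h1
      exact hb (Fin.ext h1.symm)
    · intro h1
      exact absurd (Finset.mem_univ _) h1
  · refine Finset.sum_eq_zero (fun b _ => ?_)
    rw [if_neg]
    intro h1
    exact h (by rw [h1]; exact b.2)

theorem hi_coeff {n : ℕ} (c : ℕ) (ε : ℂ) (a : Fin (n + 1) → ℂ) (k : ℕ) :
    (hi c ε a).coeff k = if h : k < n + 1 then a ⟨k, h⟩ * ε ^ (c - k) else 0 := by
  unfold hi
  rw [Polynomial.finsetSum_coeff]
  simp only [Polynomial.coeff_C_mul_X_pow]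
  split_ifs with h
  · rw [Finset.sum_eq_single (⟨k, h⟩ : Fin (n + 1))]
    · simp
    · intro b _ hb
      rw [if_neg]
      intro h1
      exact hb (Fin.ext h1.symm)
    · intro h1
      exact absurd (Finset.mem_univ _) h1
  · refine Finset.sum_eq_zero (fun b _ => ?_)
    rw [if_neg]
    intro h1
    exact h (by rw [h1]; exact b.2)

theorem lo_gl (c c' : ℕ) (f f' : ℂ[X]) (hf : f.natDegree ≤ c) :
    lo c 0 (gl c c' f f') = f := by
  ext k
  rw [lo_coeff]
  by_cases hk : k ≤ c
  · have h1 : k < c + c' + 1 := by omega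
    have h2 : k - c = 0 := by omega
    rw [dif_pos h1, h2, pow_zero, mul_one]
    unfold gl
    rw [if_pos hk]
  · have h0 : f.coeff k = 0 := Polynomial.coeff_eq_zero_of_natDegree_lt (by omega)
    rw [h0]
    have h2 : k - c ≠ 0 := by omega
    split_ifs
    · rw [zero_pow h2, mul_zero]
    · rfl

theorem hi_gl (c c' : ℕ) (f f' : ℂ[X]) (hf' : f'.natDegree ≤ c')
    (hm : f.coeff c = f'.coeff 0) : hi c 0 (gl c c' f f') = X ^ c * f' := by
  ext k
  rw [hi_coeff, Polynomial.coeff_X_pow_mul']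
  by_cases hk : c ≤ k
  · rw [if_pos hk]
    have h2 : c - k = 0 := by omega
    split_ifs with h1
    · rw [h2, pow_zero, mul_one]
      unfold gl
      simp only
      split_ifs with h3
      · have h4 : k = c := by omega
        subst h4
        rw [hm, Nat.sub_self]
      · rfl
    · exact (Polynomial.coeff_eq_zero_of_natDegree_lt (by omega)).symm
  · rw [if_neg hk]
    have h2 : c - k ≠ 0 := by omega
    split_ifs
    · rw [zero_pow h2, mul_zero]
    · rfl

section

variable {J B : Type} [Fintype J] [Fintype B] [DecidableEq J] [DecidableEq B] (D : BData J B)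

theorem uu_shift (c : J → ℕ) (d : ℕ) (τ : J → ℂ[X]) (b : B)
    (hd : ∑ j with D.bl j = b, D.l j * c j = d) :
    D.uu (fun j => X ^ c j * τ j) b = X ^ d * D.uu τ b := by
  unfold BData.uu
  rw [← hd, ← Finset.prod_pow_eq_pow_sum, ← Finset.prod_mul_distrib]
  refine Finset.prod_congr rfl (fun j _ => ?_)
  rw [mul_pow, ← pow_mul, mul_comm (c j)]

theorem du_shift (c : J → ℕ) (d : ℕ) (τ φ : J → ℂ[X]) (b : B)
    (hd : ∑ j with D.bl j = b, D.l j * c j = d) :
    D.du (fun j => X ^ c j * τ j) (fun j => X ^ c j * φ j) b = X ^ d * D.du τ φ b := by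
  unfold BData.du
  rw [Finset.mul_sum]
  refine Finset.sum_congr rfl (fun j hj => ?_)
  have h1 : ∏ i ∈ (Finset.univ.filter fun i => D.bl i = b).erase j,
      (X ^ c i * τ i) ^ D.l i =
      X ^ (∑ i ∈ (Finset.univ.filter fun i => D.bl i = b).erase j, D.l i * c i) *
      ∏ i ∈ (Finset.univ.filter fun i => D.bl i = b).erase j, τ i ^ D.l i := by
    rw [← Finset.prod_pow_eq_pow_sum, ← Finset.prod_mul_distrib]
    refine Finset.prod_congr rfl (fun i _ => ?_)
    rw [mul_pow, ← pow_mul, mul_comm (c i)]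
  have h2 : D.l j * c j +
      ∑ i ∈ (Finset.univ.filter fun i => D.bl i = b).erase j, D.l i * c i = d := by
    rw [← hd]
    exact Finset.add_sum_erase _ (fun i => D.l i * c i) hj
  have h3 : c j * (D.l j - 1) + c j = D.l j * c j := by
    have h4 := D.l_pos j
    obtain ⟨k, hk⟩ : ∃ k, D.l j = k + 1 := ⟨D.l j - 1, by omega⟩
    rw [hk, Nat.add_sub_cancel]
    ring
  rw [h1, mul_pow, ← pow_mul, ← h2, ← h3, pow_add, pow_add]
  ring

theorem du_add (τ φ ρ : J → ℂ[X]) (b : B) :
    D.du τ (fun j => φ j + ρ j) b = D.du τ φ b + D.du τ ρ b := by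
  unfold BData.du
  rw [← Finset.sum_add_distrib]
  refine Finset.sum_congr rfl (fun j _ => ?_)
  ring

end

theorem lo0_coeff (c c' : ℕ) (f f' : ℂ[X]) (k : ℕ) (hk : k ≤ c) :
    (lo c 0 (gl c c' f f')).coeff k = f.coeff k := by
  rw [lo_coeff]
  have h1 : k < c + c' + 1 := by omega
  have h2 : k - c = 0 := by omega
  rw [dif_pos h1, h2, pow_zero, mul_one]
  unfold gl
  rw [if_pos hk]

theorem hi0_coeff (c c' : ℕ) (f f' : ℂ[X]) (k : ℕ) (hk : c < k) (hk' : k ≤ c + c') :
    (hi c 0 (gl c c' f f')).coeff k = f'.coeff (k - c) := by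
  rw [hi_coeff]
  have h1 : k < c + c' + 1 := by omega
  have h2 : c - k = 0 := by omega
  rw [dif_pos h1, h2, pow_zero, mul_one]
  unfold gl
  rw [if_neg (by simpa using hk)]

theorem trunc_coeff (N : ℕ) (a : ℕ → ℂ) (k : ℕ) :
    (∑ i ∈ Finset.range (N + 1), C (a i) * X ^ i : ℂ[X]).coeff k = if k ≤ N then a k else 0 := by
  rw [Polynomial.finsetSum_coeff]
  simp only [Polynomial.coeff_C_mul_X_pow]
  rw [Finset.sum_ite_eq]
  simp only [Finset.mem_range]
  by_cases h : k ≤ N
  · rw [if_pos h, if_pos (by omega)]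
  · rw [if_neg h, if_neg (by omega)]

theorem trunc_natDegree (N : ℕ) (a : ℕ → ℂ) :
    (∑ i ∈ Finset.range (N + 1), C (a i) * X ^ i : ℂ[X]).natDegree ≤ N := by
  rw [Polynomial.natDegree_le_iff_coeff_eq_zero]
  intro k hk
  rw [trunc_coeff, if_neg (by omega)]

theorem stmt_LIN : Stmt_LIN := by
  intro J B _ _ _ _ D c c' d d' τ τ' u v u' v' hs hreg hs' hreg' hτ hu hv
  have hlo : (fun j => lo (c j) 0 (gl (c j) (c' j) (τ j) (τ' j))) = τ :=
    funext (fun j => lo_gl _ _ _ _ (hs.deg j).le)
  have hhi : (fun j => hi (c j) 0 (gl (c j) (c' j) (τ j) (τ' j))) =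
      fun j => X ^ c j * τ' j :=
    funext (fun j => hi_gl _ _ _ _ (hs'.deg j).le (hτ j))
  refine ⟨?_, ?_⟩
  · funext b k
    unfold BData.EE
    simp only [Pi.zero_apply]
    have hk2 := k.2
    split_ifs with hk
    · unfold BData.eqLo
      simp only
      rw [hlo, hs.rel b]
      simp only [Polynomial.coeff_sub, Polynomial.coeff_add, Polynomial.coeff_C_mul]
      rw [lo0_coeff _ _ _ _ _ hk, lo0_coeff _ _ _ _ _ hk]
      ring
    · unfold BData.eqHi
      simp only
      rw [hhi, uu_shift D c d τ' b (hs.bal b), hs'.rel b]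
      simp only [Polynomial.coeff_sub, Polynomial.coeff_C_mul]
      rw [hi0_coeff _ _ _ _ _ (by omega) (by omega), hi0_coeff _ _ _ _ _ (by omega) (by omega),
        Polynomial.coeff_X_pow_mul', if_pos (by omega)]
      simp only [Polynomial.coeff_add, Polynomial.coeff_C_mul]
      ring
  · intro w
    -- the first component
    obtain ⟨P, hP⟩ : ∃ P : B → ℂ[X], P = fun b => ∑ i ∈ Finset.range (d + 1),
        C (if h : i < d + d' + 1 then w b ⟨i, h⟩ else 0) * X ^ i := ⟨_, rfl⟩
    have hPd : ∀ b, (P b).natDegree ≤ d := by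
      intro b
      rw [hP]
      exact trunc_natDegree d _
    obtain ⟨σ, p, q, hσ, hp, hq, hrel⟩ := hreg P hPd
    -- the second component
    obtain ⟨A, hA⟩ : ∃ A : B → ℂ[X], A = fun b => D.du τ' (fun j => C ((σ j).coeff (c j))) b -
        C (D.al b) * C (p.coeff d) - C (D.be b) * C (q.coeff d) := ⟨_, rfl⟩
    obtain ⟨Q, hQ⟩ : ∃ Q : B → ℂ[X], Q = fun b => ∑ i ∈ Finset.range (d' + 1),
        C (if i = 0 then 0 else (if h : d + i < d + d' + 1 then w b ⟨d + i, h⟩ else 0) -
          (A b).coeff i) * X ^ i := ⟨_, rfl⟩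
    have hQd : ∀ b, (Q b).natDegree ≤ d' ∧ (Q b).coeff 0 = 0 := by
      intro b
      rw [hQ]
      refine ⟨trunc_natDegree d' _, ?_⟩
      simp only
      rw [trunc_coeff d' (fun i => if i = 0 then 0 else
        (if h : d + i < d + d' + 1 then w b ⟨d + i, h⟩ else 0) - (A b).coeff i)]
      simp
    obtain ⟨ρ, p', q', hρ, hp', hq', hrel'⟩ := hreg' Q hQd
    refine ⟨(fun j => gl (c j) (c' j) (σ j) (C ((σ j).coeff (c j)) + ρ j),
      gl d d' p (C (p.coeff d) + p'), gl d d' q (C (q.coeff d) + q')), ?_⟩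
    have hlo2 : (fun j => lo (c j) 0 (gl (c j) (c' j) (σ j) (C ((σ j).coeff (c j)) + ρ j))) = σ :=
      funext (fun j => lo_gl _ _ _ _ (hσ j))
    have hhi2 : (fun j => hi (c j) 0 (gl (c j) (c' j) (σ j) (C ((σ j).coeff (c j)) + ρ j))) =
        fun j => X ^ c j * (C ((σ j).coeff (c j)) + ρ j) := by
      refine funext (fun j => hi_gl _ _ _ _ ?_ ?_)
      · refine (Polynomial.natDegree_add_le _ _).trans (max_le ?_ (hρ j).1)
        rw [Polynomial.natDegree_C]
        exact Nat.zero_le _
      · rw [Polynomial.coeff_add, Polynomial.coeff_C_zero, (hρ j).2, add_zero]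
    funext b k
    unfold BData.DEE
    have hk2 := k.2
    split_ifs with hk
    · unfold BData.deLo
      simp only
      rw [hlo, hlo2, hrel b]
      simp only [Polynomial.coeff_sub, Polynomial.coeff_add, Polynomial.coeff_C_mul]
      rw [lo0_coeff _ _ _ _ _ hk, lo0_coeff _ _ _ _ _ hk, hP]
      simp only
      rw [trunc_coeff d (fun i => if h : i < d + d' + 1 then w b ⟨i, h⟩ else 0), if_pos hk,
        dif_pos hk2]
      ring
    · unfold BData.deHi
      simp only
      rw [hhi, hhi2, du_shift D c d τ' _ b (hs.bal b), du_add, hrel' b]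
      simp only [Polynomial.coeff_sub, Polynomial.coeff_C_mul]
      rw [hi0_coeff _ _ _ _ _ (by omega) (by omega), hi0_coeff _ _ _ _ _ (by omega) (by omega),
        Polynomial.coeff_X_pow_mul', if_pos (by omega)]
      obtain ⟨i, hi⟩ : ∃ i, (k : ℕ) - d = i + 1 := ⟨(k : ℕ) - d - 1, by omega⟩
      have hAi : (A b).coeff (i + 1) =
          (D.du τ' (fun j => C ((σ j).coeff (c j))) b).coeff (i + 1) := by
        rw [hA]
        simp only [Polynomial.coeff_sub, Polynomial.coeff_C_mul, Polynomial.coeff_C_succ]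
        ring
      have hQi : (Q b).coeff (i + 1) = w b k - (A b).coeff (i + 1) := by
        rw [hQ]
        simp only
        rw [trunc_coeff d' (fun i => if i = 0 then 0 else
          (if h : d + i < d + d' + 1 then w b ⟨d + i, h⟩ else 0) - (A b).coeff i),
          if_pos (by omega), if_neg (by omega), dif_pos (by omega)]
        congr 2
        exact Fin.ext (by simp only; omega)
      rw [hi]
      simp only [Polynomial.coeff_add, Polynomial.coeff_C_mul, Polynomial.coeff_C_succ]
      rw [hQi, hAi]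
      ring

end Pool.C1.helper83
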